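import Mathlib

set_option autoImplicit false
open Set Metric Filter Topology

namespace Pool.Agent.H.MP_a73857_co

abbrev E := Fin 3 → ℝ

def SN : Set C(E, ℝ) :=
  {f | (∀ x y, f (x + y) ≤ f x + f y) ∧ ∀ (c : ℝ) x, f (c • x) = |c| * f x}

abbrev X := {f : C(E, ℝ) // (∀ x, f x = 0 → x = 0) ∧ (∀ x y, f (x + y) ≤ f x + f y) ∧
  (∀ (c : ℝ) x, f (c • x) = |c| * f x)}

lemma near (g : C(E, ℝ)) {ε : ℝ} (hε : 0 < ε) :
    {f : C(E, ℝ) | ∀ x, ‖x‖ ≤ 1 → |f x - g x| < ε} ∈ 𝓝 g := by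
  have hc : Continuous fun f : C(E, ℝ) => f.restrict (closedBall (0 : E) 1) :=
    ContinuousMap.continuous_restrict _
  have h := hc.continuousAt (x := g) (ball_mem_nhds _ hε)
  refine mem_of_superset h fun f hf x hx => ?_
  have h1 : dist (f.restrict (closedBall (0 : E) 1)) (g.restrict (closedBall (0 : E) 1)) < ε := hf
  have h2 := ContinuousMap.dist_apply_le_dist (f := f.restrict (closedBall (0 : E) 1))
    (g := g.restrict (closedBall (0 : E) 1)) ⟨x, by simpa using hx⟩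
  simp only [ContinuousMap.restrict_apply, Real.dist_eq] at h2
  exact h2.trans_lt h1

lemma scale {f g : E → ℝ} (hf : ∀ (c : ℝ) x, f (c • x) = |c| * f x)
    (hg : ∀ (c : ℝ) x, g (c • x) = |c| * g x) {ε : ℝ}
    (h : ∀ x, ‖x‖ ≤ 1 → |f x - g x| < ε) (x : E) : |f x - g x| ≤ ε * ‖x‖ := by
  rcases eq_or_ne x 0 with rfl | hx
  · have h1 := hf 0 0
    have h2 := hg 0 0
    simp only [smul_zero, abs_zero, zero_mul] at h1 h2
    simp [h1, h2]
  · have hn : 0 < ‖x‖ := norm_pos_iff.2 hx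
    have e : x = ‖x‖ • (‖x‖⁻¹ • x) := by rw [smul_smul, mul_inv_cancel₀ hn.ne', one_smul]
    have h1 := h (‖x‖⁻¹ • x) (by rw [norm_smul, norm_inv, norm_norm, inv_mul_cancel₀ hn.ne'])
    have a := hf ‖x‖ (‖x‖⁻¹ • x)
    have b := hg ‖x‖ (‖x‖⁻¹ • x)
    rw [← e, abs_of_pos hn] at a b
    rw [a, b, ← mul_sub, abs_mul, abs_of_pos hn, mul_comm ε]
    exact mul_le_mul_of_nonneg_left h1.le hn.le

lemma closedSN : IsClosed SN := by
  have e : SN = (⋂ x, ⋂ y, {f : C(E, ℝ) | f (x + y) ≤ f x + f y}) ∩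
      ⋂ c : ℝ, ⋂ x, {f : C(E, ℝ) | f (c • x) = |c| * f x} := by
    ext f; simp [SN]
  rw [e]
  refine IsClosed.inter (isClosed_iInter fun x => isClosed_iInter fun y => ?_)
    (isClosed_iInter fun c => isClosed_iInter fun x => ?_)
  · exact isClosed_le (by fun_prop) (by fun_prop)
  · exact isClosed_eq (by fun_prop) (by fun_prop)

lemma baire : BaireSpace X := by
  have : CompleteSpace SN := closedSN.completeSpace_coe
  have : BaireSpace SN := inferInstance
  let p : X → SN := fun f => ⟨f.1, f.2.2⟩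
  have hp : IsEmbedding p := by
    refine IsEmbedding.of_comp (g := (Subtype.val : SN → C(E, ℝ))) ?_ continuous_subtype_val ?_
    · exact continuous_subtype_val.subtype_mk _
    · exact IsEmbedding.subtypeVal
  refine IsOpenEmbedding.baireSpace (p := p) ⟨hp, ?_⟩
  rw [isOpen_iff_mem_nhds]
  rintro _ ⟨f, rfl⟩
  obtain ⟨x0, hx0, hm⟩ := (isCompact_sphere (0 : E) 1).exists_isMinOn
    (NormedSpace.sphere_nonempty.2 zero_le_one) (f := fun x => |f.1 x|) (by fun_prop)
  have hx1 : ‖x0‖ = 1 := by simpa using hx0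
  have hpos : 0 < |f.1 x0| := abs_pos.2 fun h => by
    have := f.2.1 _ h
    rw [this] at hx1; simp at hx1
  have h := continuous_subtype_val.continuousAt (x := p f) (near f.1 hpos)
  refine mem_of_superset h fun g hg => ?_
  refine ⟨⟨g.1, fun x hx => ?_, g.2⟩, rfl⟩
  by_contra hne
  have hn : 0 < ‖x‖ := norm_pos_iff.2 hne
  have hu : ‖‖x‖⁻¹ • x‖ = 1 := by rw [norm_smul, norm_inv, norm_norm, inv_mul_cancel₀ hn.ne']
  have h1 : |g.1 (‖x‖⁻¹ • x) - f.1 (‖x‖⁻¹ • x)| < |f.1 x0| := hg _ hu.le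
  rw [g.2.2, hx, mul_zero, zero_sub, abs_neg] at h1
  have h2 : |f.1 x0| ≤ |f.1 (‖x‖⁻¹ • x)| := hm (by simpa using hu)
  linarith

lemma notres {A : Set X} {g : X} (h : Aᶜ ∈ 𝓝 g) : A ∉ residual X := by
  intro hA
  have := baire
  obtain ⟨y, hy, hy'⟩ := (dense_of_mem_residual hA).inter_nhds_nonempty h
  exact hy' hy

lemma near' (g : X) {ε : ℝ} (hε : 0 < ε) :
    {f : X | ∀ x, |f.1 x - g.1 x| ≤ ε * ‖x‖} ∈ 𝓝 g := by
  have h := continuous_subtype_val.continuousAt (x := g) (near g.1 hε)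
  exact mem_of_superset h fun f hf x => scale f.2.2.2 g.2.2.2 hf x

/-- robust solvability near a locally linear point -/
lemma robust {ι : Type} [Fintype ι] (φ : ι → E →L[ℝ] ℝ) (v : ι → E)
    (D : ι → (ι → ℝ) →L[ℝ] E) (hD : ∀ k y, φ k (D k y) = y k) (hv : ∀ k, φ k (v k) = 1)
    (g : E → ℝ) (hg : ∀ k, ∀ᶠ x in 𝓝 (v k), g x = φ k x) :
    ∃ ε > 0, ∀ N : E → ℝ, ConvexOn ℝ univ N → (∀ x, |N x - g x| ≤ ε * ‖x‖) →
      ∃ y, ∀ k, N (v k + D k y) = 1 := by
  obtain ⟨r, hr, hr'⟩ : ∃ r > 0, ∀ k, ∀ x, dist x (v k) < r → g x = φ k x := by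
    have : ∀ᶠ r in 𝓝[>] (0 : ℝ), ∀ k, ∀ x, dist x (v k) < r → g x = φ k x := by
      rw [eventually_all]
      intro k
      obtain ⟨r, hr, h⟩ := Metric.eventually_nhds_iff.1 (hg k)
      filter_upwards [Ioo_mem_nhdsGT hr] with s hs x hx
      exact h (hx.trans hs.2)
    obtain ⟨r, h1, h2⟩ := (this.and self_mem_nhdsWithin).exists
    exact ⟨r, h2, h1⟩
  obtain ⟨C, hC, hC'⟩ : ∃ C > 0, ∀ k, ‖D k‖ ≤ C := by
    obtain ⟨C, h⟩ := (Finite.bddAbove_range fun k => ‖D k‖)
    exact ⟨max C 1, by positivity, fun k => (h ⟨k, rfl⟩).trans (le_max_left _ _)⟩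
  obtain ⟨B, hB, hB'⟩ : ∃ B > 0, ∀ k, ‖v k‖ ≤ B := by
    obtain ⟨C, h⟩ := (Finite.bddAbove_range fun k => ‖v k‖)
    exact ⟨max C 1, by positivity, fun k => (h ⟨k, rfl⟩).trans (le_max_left _ _)⟩
  set m := r / (8 * C) with hm
  have hm0 : 0 < m := by positivity
  refine ⟨m / (B + r), by positivity, fun N hN hNg => ?_⟩
  have hb : ∀ k a, dist a (v k) < r → |N a - φ k a| ≤ m := by
    intro k a ha
    rw [← hr' k a ha]
    refine (hNg a).trans ?_
    have h1 : ‖a‖ ≤ B + r := by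
      have := norm_le_norm_add_norm_sub' a (v k)
      rw [dist_eq_norm] at ha
      linarith [hB' k]
    calc m / (B + r) * ‖a‖ ≤ m / (B + r) * (B + r) := by gcongr
      _ = m := by field_simp
  have hl : ∀ k, LipschitzOnWith (2 * m / (r / 2)).toNNReal (fun a => N a - φ k a)
      (ball (v k) (r - r / 2)) := by
    intro k
    refine ConvexOn.lipschitzOnWith_of_abs_le ?_ (by positivity) (hb k)
    have h1 : ConcaveOn ℝ univ (φ k) := (φ k).toLinearMap.concaveOn convex_univ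
    exact (hN.sub h1).subset (subset_univ _) (convex_ball _ _)
  have hin : ∀ k, ∀ y ∈ closedBall (0 : ι → ℝ) m, v k + D k y ∈ ball (v k) (r - r / 2) := by
    intro k y hy
    rw [mem_ball, dist_eq_norm, add_sub_cancel_left]
    have h1 : ‖y‖ ≤ m := by simpa using hy
    calc ‖D k y‖ ≤ ‖D k‖ * ‖y‖ := (D k).le_opNorm y
      _ ≤ C * m := by gcongr; exact hC' k
      _ = r / 8 := by rw [hm]; field_simp
      _ < r - r / 2 := by linarith
  let T : (ι → ℝ) → (ι → ℝ) := fun y k => -(N (v k + D k y) - φ k (v k + D k y))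
  have hT : MapsTo T (closedBall 0 m) (closedBall 0 m) := by
    intro y hy
    rw [mem_closedBall_zero_iff, pi_norm_le_iff_of_nonneg hm0.le]
    intro k
    simp only [T, Real.norm_eq_abs, abs_neg]
    refine hb k _ ?_
    have := hin k y hy
    rw [mem_ball] at this
    linarith
  have hK : ContractingWith (1 / 2) (hT.restrict T _ _) := by
    refine ⟨by norm_num, LipschitzWith.of_dist_le_mul fun y z => ?_⟩
    rw [Subtype.dist_eq, Subtype.dist_eq, dist_pi_le_iff (by positivity)]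
    intro k
    have h1 := (hl k).dist_le_mul _ (hin k y.1 y.2) _ (hin k z.1 z.2)
    simp only [MapsTo.val_restrict_apply, T, dist_neg_neg]
    refine h1.trans ?_
    rw [Real.coe_toNNReal _ (by positivity), dist_add_left, dist_eq_norm, ← map_sub, dist_eq_norm]
    calc 2 * m / (r / 2) * ‖D k (y.1 - z.1)‖ ≤ 2 * m / (r / 2) * (C * ‖y.1 - z.1‖) := by
          gcongr
          exact ((D k).le_opNorm _).trans (by gcongr; exact hC' k)
      _ = ((1 / 2 : NNReal) : ℝ) * ‖y.1 - z.1‖ := by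
          generalize ‖y.1 - z.1‖ = t
          rw [hm]; push_cast; field_simp; ring
  obtain ⟨y, -, hy, -⟩ := hK.exists_fixedPoint' isClosed_closedBall.isComplete hT
    (mem_closedBall_self hm0.le) (edist_ne_top _ _)
  refine ⟨y, fun k => ?_⟩
  have h1 := congrFun hy k
  simp only [T, map_add, hD, hv] at h1
  linarith

lemma conv (f : X) : ConvexOn ℝ univ f.1 := by
  refine ⟨convex_univ, fun x _ y _ a b ha hb _ => ?_⟩
  have := f.2.2.1 (a • x) (b • y)
  rw [f.2.2.2, f.2.2.2, abs_of_nonneg ha, abs_of_nonneg hb] at this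
  simpa using this

def pp : Fin 5 → Fin 3 → ℤ := ![![1, 0, 0], ![0, 1, 0], ![-1, -1, 0], ![0, 0, 1], ![0, 0, -1]]

def FF : Fin 10 → Fin 3 → ℤ := ![![4, -6, 0], ![4, 2, -1], ![6, -3, -4], ![6, -3, 4],
  ![-2, 6, 1], ![-3, 6, -4], ![-3, 6, 4], ![-3, -3, -4], ![-3, -3, 4], ![3, 0, 5]]

def e1 : Fin 10 → Fin 5 := ![0, 0, 0, 0, 1, 1, 1, 2, 2, 3]
def e2 : Fin 10 → Fin 5 := ![1, 2, 3, 4, 2, 3, 4, 3, 4, 4]

def RR : Fin 5 → Fin 10 → Fin 3 → ℤ := 
  ![![![0, 64, -48], ![0, 48, 0], ![0, -78, 30], ![0, -66, 66], ![0, 64, -48],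
   ![0, -56, 42], ![0, -72, 54], ![0, -82, 54], ![0, -78, 42], ![0, -18, -36]],
  ![![-144, -8, 96], ![-216, -96, 0], ![99, -12, -96], ![45, -36, -96], ![0, 64, 96],
   ![72, -8, -102], ![72, -24, -90], ![45, -52, -108], ![99, -12, -84], ![81, 36, 18]],
  ![![0, 64, -48], ![0, -24, 0], ![0, -69, 48], ![0, -75, 48], ![0, 64, -48],
   ![0, -56, 42], ![0, -72, 54], ![0, -91, 36], ![0, -69, 60], ![0, 9, 18]],
  ![![0, 0, 0], ![-24, 0, 0], ![-5, 0, 0], ![-11, 0, 0], ![0, 0, 0],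
   ![0, 0, 0], ![0, 0, 0], ![5, 0, 0], ![11, 0, 0], ![33, 0, 0]],
  ![![0, 128, 0], ![-24, 0, 0], ![-5, -128, 0], ![-11, -128, 0], ![0, 128, 0],
   ![0, -112, 0], ![0, -144, 0], ![5, -144, 0], ![11, -112, 0], ![-15, 0, 0]]]

lemma h1 : ∀ k l, ∑ c, FF k c * (RR (e1 k) l c - RR (e2 k) l c) = if l = k then 144 else 0 := by
  decide +kernel

lemma h2 : ∀ k, ∑ c, FF k c * (pp (e1 k) c - pp (e2 k) c) = 10 := by decide +kernel

lemma h3 : ∀ k l, l ≠ k → |∑ c, FF l c * (pp (e1 k) c - pp (e2 k) c)| < 10 := by decide +kernel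

lemma h4 : ∀ i j : Fin 5, i ≠ j → ∃ k, (e1 k = i ∧ e2 k = j) ∨ (e1 k = j ∧ e2 k = i) := by
  decide +kernel

noncomputable def ph (k : Fin 10) : E →L[ℝ] ℝ :=
  ∑ c, (FF k c : ℝ) • ContinuousLinearMap.proj c

lemma ph_apply (k : Fin 10) (x : E) : ph k x = ∑ c, (FF k c : ℝ) * x c := by
  simp [ph]

noncomputable def MM : E →L[ℝ] (Fin 10 → ℝ) := ContinuousLinearMap.pi ph

noncomputable def N1 : X :=
  ⟨⟨fun x => ‖MM x‖, by fun_prop⟩, fun x hx => by
    have h : MM x = 0 := norm_eq_zero.1 hx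
    have a := congrFun h 0
    have b := congrFun h 2
    have c := congrFun h 3
    simp [MM, ph_apply, FF, Fin.sum_univ_three] at a b c
    ext i
    fin_cases i <;> simp <;> linarith,
   fun x y => by simpa using norm_add_le _ _, fun c x => by simp [norm_smul]⟩

noncomputable def pt (i : Fin 5) : E := fun c => (pp i c : ℝ) / 10

noncomputable def dd (i : Fin 5) : (Fin 10 → ℝ) →L[ℝ] E :=
  ContinuousLinearMap.pi fun c => ∑ l, ((RR i l c : ℝ) / 144) • ContinuousLinearMap.proj l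

lemma dd_apply (i : Fin 5) (y : Fin 10 → ℝ) (c : Fin 3) :
    dd i y c = ∑ l, (RR i l c : ℝ) / 144 * y l := by
  simp [dd]

lemma ph_v (k l : Fin 10) : ph l (pt (e1 k) - pt (e2 k)) =
    ((∑ c, FF l c * (pp (e1 k) c - pp (e2 k) c) : ℤ) : ℝ) / 10 := by
  rw [ph_apply]
  push_cast
  rw [Finset.sum_div]
  refine Finset.sum_congr rfl fun c _ => ?_
  simp only [pt, Pi.sub_apply]; ring

lemma yes : {N : X | ∃ φ : Fin 5 → E, Function.Injective φ ∧
    ∀ u v, (⊤ : SimpleGraph (Fin 5)).Adj u v → N.1 (φ u - φ v) = 1} ∈ 𝓝 N1 := by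
  have hv : ∀ k, ph k (pt (e1 k) - pt (e2 k)) = 1 := fun k => by rw [ph_v, h2]; norm_num
  obtain ⟨ε, hε, h⟩ := robust ph (fun k => pt (e1 k) - pt (e2 k))
    (fun k => dd (e1 k) - dd (e2 k)) (fun k y => by
      have : ph k ((dd (e1 k) - dd (e2 k)) y) =
          ∑ l, ((∑ c, FF k c * (RR (e1 k) l c - RR (e2 k) l c) : ℤ) : ℝ) / 144 * y l := by
        rw [ph_apply]
        simp only [_root_.sub_apply, Pi.sub_apply, dd_apply]
        push_cast
        simp only [← Finset.sum_sub_distrib, Finset.mul_sum, Finset.sum_div, Finset.sum_mul]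
        rw [Finset.sum_comm]
        refine Finset.sum_congr rfl fun l _ => Finset.sum_congr rfl fun c _ => by ring
      rw [this]
      simp only [h1]
      rw [Finset.sum_eq_single k] <;> simp +contextual) hv N1.1 (fun k => by
      have : ∀ᶠ x in 𝓝 (pt (e1 k) - pt (e2 k)), ∀ l, |ph l x| ≤ ph k x := by
        rw [eventually_all]
        intro l
        rcases eq_or_ne l k with rfl | hl
        · have : ∀ᶠ x in 𝓝 (pt (e1 l) - pt (e2 l)), 0 < ph l x :=
            (continuousAt_const.eventually_lt (ph l).continuous.continuousAt (by rw [hv]; norm_num))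
          filter_upwards [this] with x hx
          rw [abs_of_pos hx]
        · have : ∀ᶠ x in 𝓝 (pt (e1 k) - pt (e2 k)), |ph l x| < ph k x := by
            refine ContinuousAt.eventually_lt (f := fun x => |ph l x|) (by fun_prop)
              (ph k).continuous.continuousAt ?_
            have h := h3 k l hl
            show |ph l _| < _
            rw [hv, ph_v, abs_div, ← Int.cast_abs, div_lt_one (by norm_num)]
            have : ((|∑ c, FF l c * (pp (e1 k) c - pp (e2 k) c)| : ℤ) : ℝ) < (10 : ℤ) := by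
              exact_mod_cast h
            simpa using this
          exact this.mono fun x hx => hx.le
      filter_upwards [this] with x hx
      refine le_antisymm ?_ ?_
      · exact (pi_norm_le_iff_of_nonneg ((abs_nonneg _).trans (hx k))).2 hx
      · exact (le_abs_self _).trans (norm_le_pi_norm (MM x) k))
  refine mem_of_superset (near' N1 hε) fun N hN => ?_
  obtain ⟨y, hy⟩ := h N.1 (conv N) hN
  have key : ∀ u v : Fin 5, u ≠ v → N.1 ((pt u + dd u y) - (pt v + dd v y)) = 1 := by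
    have h0 : ∀ k, N.1 ((pt (e1 k) + dd (e1 k) y) - (pt (e2 k) + dd (e2 k) y)) = 1 := fun k => by
      rw [← hy k]; congr 1; simp only [_root_.sub_apply]; abel
    intro u v huv
    obtain ⟨k, ⟨rfl, rfl⟩ | ⟨rfl, rfl⟩⟩ := h4 u v huv
    · exact h0 k
    · rw [← neg_sub, ← neg_one_smul ℝ, N.2.2.2, h0]; simp
  refine ⟨fun u => pt u + dd u y, fun u v huv => ?_, fun u v huv => key u v huv⟩
  by_contra hne
  have h := key u v hne
  have h0 := N.2.2.2 0 0
  simp only at huv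
  rw [huv, sub_self] at h
  simp [h] at h0

noncomputable def N0 : X :=
  ⟨⟨fun x => ‖(WithLp.toLp 2 x : EuclideanSpace ℝ (Fin 3))‖, by fun_prop⟩, fun x hx => by
    simpa using hx,
   fun x y => by simpa using norm_add_le _ _, fun c x => by simp [norm_smul]⟩

lemma no : {N : X | ¬ ∃ φ : Fin 5 → E, Function.Injective φ ∧
    ∀ u v, (⊤ : SimpleGraph (Fin 5)).Adj u v → N.1 (φ u - φ v) = 1} ∈ 𝓝 N0 := by
  refine mem_of_superset (near' N0 (by norm_num : (0 : ℝ) < 1 / 20)) fun N hN => ?_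
  rintro ⟨φ, -, hφ⟩
  have hs : ∀ u v, u ≠ v → |∑ c, (φ u c - φ v c) ^ 2 - 1| ≤ 1 / 5 := by
    intro u v huv
    have a := hN (φ u - φ v)
    rw [hφ u v huv] at a
    set t := ‖(WithLp.toLp 2 (φ u - φ v) : EuclideanSpace ℝ (Fin 3))‖ with ht
    have b : ‖φ u - φ v‖ ≤ t := by
      refine (pi_norm_le_iff_of_nonneg (norm_nonneg _)).2 fun c => ?_
      exact PiLp.norm_apply_le (WithLp.toLp 2 (φ u - φ v) : EuclideanSpace ℝ (Fin 3)) c
    have c : t ^ 2 = ∑ c, (φ u c - φ v c) ^ 2 := by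
      rw [ht, EuclideanSpace.norm_sq_eq]; simp
    have d : |1 - t| ≤ 1 / 20 * t := a.trans (by gcongr)
    rw [← c]
    rw [abs_le] at d ⊢
    constructor <;> nlinarith [d.1, d.2]
  have hd : ¬ LinearIndependent ℝ (fun u : Fin 5 => (Fin.cons 1 (φ u) : Fin 4 → ℝ)) := by
    intro h
    have := h.fintype_card_le_finrank
    simp at this
  obtain ⟨l, hl, i, hi⟩ := Fintype.not_linearIndependent_iff.1 hd
  have s0 : ∑ u, l u = 0 := by simpa using congrFun hl 0
  have s1 : ∀ c, ∑ u, l u * φ u c = 0 := fun c => by simpa using congrFun hl c.succ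
  have z : ∑ u, ∑ v, l u * l v * ∑ c, (φ u c - φ v c) ^ 2 = 0 := by
    have : ∑ u, ∑ v, l u * l v * ∑ c, (φ u c - φ v c) ^ 2 =
        ∑ c, (2 * (∑ u, l u) * (∑ u, l u * φ u c ^ 2) - 2 * (∑ u, l u * φ u c) ^ 2) := by
      simp only [Fin.sum_univ_five, Fin.sum_univ_three]; ring
    rw [this]
    simp [s0, s1]
  have w : ∀ u v, l u * l v * ∑ c, (φ u c - φ v c) ^ 2 ≤
      l u * l v + (if u = v then -l u ^ 2 else (l u ^ 2 + l v ^ 2) / 10) := by
    intro u v
    split_ifs with h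
    · subst h; simp; nlinarith
    · have a := abs_le.1 (hs u v h)
      generalize ∑ c, (φ u c - φ v c) ^ 2 = S at a
      nlinarith [mul_nonneg (sub_nonneg.2 a.1) (sq_nonneg (l u - l v)),
        mul_nonneg (sub_nonneg.2 a.2) (sq_nonneg (l u + l v))]
  have w2 := Finset.sum_le_sum fun u (_ : u ∈ Finset.univ) =>
    Finset.sum_le_sum fun v (_ : v ∈ Finset.univ) => w u v
  rw [z] at w2
  have w3 : 0 < ∑ u, l u ^ 2 :=
    Finset.sum_pos' (fun u _ => sq_nonneg _) ⟨i, Finset.mem_univ _, by positivity⟩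
  have w4 : (∑ u, l u) ^ 2 = 0 := by rw [s0]; simp
  simp [Fin.sum_univ_five] at w2
  simp only [Fin.sum_univ_five] at w3 w4
  nlinarith

end Pool.Agent.H.MP_a73857_co
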